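import Pool.Agent.Y827.RO.NarF
import Pool.Agent.N694.PW.Up

/-!
Spread sets of prime tuples (helper694): sets of the right order of magnitude for a sieve of dimension `r` which
have at most the expected number of elements in every interval of length `≥ N ^ (1 / (s + 1))`; the coloured
theorem.
-/

set_option autoImplicit false

namespace Pool.Agent.N694.SP

open Finset Filter Topology
open Pool.Agent.Y827.GS
open Pool.Agent.Y827.RO
open Pool.Agent.N694.PW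

/-- `R ⊆ [1, N]` has at least `c N / (log N) ^ r` elements, and at most `C L / (log N) ^ r` in every interval of
length `L` with `L ^ (s + 1) ≥ N` -/
def Spr (r s : ℕ) (c C : ℝ) (N : ℕ) (R : Finset ℕ) : Prop :=
  (∀ m ∈ R, 1 ≤ m ∧ m ≤ N) ∧ c * (N / Real.log N ^ r) ≤ (R.card : ℝ) ∧
    ∀ A L : ℕ, N ≤ L ^ (s + 1) → ((R.filter (fun m => A < m ∧ m ≤ A + L)).card : ℝ) ≤
      C * (L / Real.log N ^ r)

theorem Spr_mono {r s s' : ℕ} {c c' C C' : ℝ} {N : ℕ} {R : Finset ℕ} (hN : 3 ≤ N) (hs : s' ≤ s) (hc : c' ≤ c)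
    (hC : C ≤ C') (h : Spr r s c C N R) : Spr r s' c' C' N R := by
  have hN3 : (3 : ℝ) ≤ N := by exact_mod_cast hN
  have hl : 0 < Real.log N := Real.log_pos (by linarith)
  refine ⟨h.1, (mul_le_mul_of_nonneg_right hc (by positivity)).trans h.2.1, fun A L hL => ?_⟩
  have hL1 : 1 ≤ L := by
    by_contra hcon
    have : L = 0 := by omega
    subst this
    rw [zero_pow (by omega)] at hL
    omega
  refine (h.2.2 A L (hL.trans (Nat.pow_le_pow_right hL1 (by omega)))).trans ?_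
  exact mul_le_mul_of_nonneg_right hC (by positivity)

/-- all forms of `F` are prime on a spread set -/
def GS (s : ℕ) (c C : ℝ) (r₀ N : ℕ) (F : Finset (ℤ × ℤ)) : Prop := ∃ r ≤ r₀, ∃ R : Finset ℕ, Spr r s c C N R ∧
  ∀ m ∈ R, ∀ f ∈ F, (f.1 * (m : ℤ) + f.2).toNat.Prime

theorem GS_anti {s : ℕ} {c C : ℝ} {r₀ N : ℕ} {F F' : Finset (ℤ × ℤ)} (h : F' ⊆ F) (hF : GS s c C r₀ N F) :
    GS s c C r₀ N F' := by
  obtain ⟨r, hr, R, h1, h2⟩ := hF
  exact ⟨r, hr, R, h1, fun m hm f hf => h2 m hm f (h hf)⟩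

theorem GS_mono {s s' : ℕ} {c c' C C' : ℝ} {r₀ r₀' N : ℕ} {F : Finset (ℤ × ℤ)} (hN : 3 ≤ N) (hs : s' ≤ s)
    (hc : c' ≤ c) (hC : C ≤ C') (hr : r₀ ≤ r₀') (hF : GS s c C r₀ N F) : GS s' c' C' r₀' N F := by
  obtain ⟨r, hr', R, h1, h2⟩ := hF
  exact ⟨r, hr'.trans hr, R, Spr_mono hN hs hc hC h1, h2⟩

/-- two different primitive forms with positive slopes are not proportional -/
theorem not_prop {f g : ℤ × ℤ} (hf : 0 < f.1) (hg : 0 < g.1) (hfc : IsCoprime f.1 f.2)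
    (hgc : IsCoprime g.1 g.2) (hne : f ≠ g) : f.1 * g.2 - g.1 * f.2 ≠ 0 := by
  intro h
  have he : f.1 * g.2 = g.1 * f.2 := by linarith
  have h1 : f.1 ∣ g.1 := hfc.dvd_of_dvd_mul_right (by rw [← he]; exact dvd_mul_right _ _)
  have h2 : g.1 ∣ f.1 := hgc.dvd_of_dvd_mul_right (by rw [he]; exact dvd_mul_right _ _)
  have h3 : f.1 = g.1 := Int.dvd_antisymm hf.le hg.le h1 h2
  rw [h3] at he
  have h4 : g.2 = f.2 := mul_left_cancel₀ hg.ne' he
  exact hne (Prod.ext h3 h4.symm)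

open Classical in
/-- the upper bound for rough values of families of forms in intervals -/
theorem upF {T K : ℕ} (H : Fin T → Fin K → ℤ × ℤ)
    (hinj : Function.Injective (fun x : Fin T × Fin K => H x.1 x.2))
    (hpos : ∀ g i, 0 < (H g i).1 ∧ IsCoprime (H g i).1 (H g i).2) (δ : ℝ) (hδ : 0 < δ) (s : ℕ) :
    ∃ C : ℝ, 0 < C ∧ ((∀ g i, (H g i).2 + (H g i).1 * s ≠ 0) → ∀ᶠ X : ℕ in atTop, ∀ A : ℕ,
      (((Ioc A (A + X)).filter (fun n : ℕ =>
        (∀ p : ℕ, p.Prime → Real.log p ≤ δ * Real.log X → ¬ (p : ℤ) ∣ (n : ℤ) - s) ∧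
        (∀ g i, ∀ p : ℕ, p.Prime → Real.log p ≤ δ * Real.log X →
          ¬ (p : ℤ) ∣ (H g i).1 * n + (H g i).2))).card : ℝ) ≤
        C * (X / Real.log X ^ (T * K + 1))) := by
  by_cases hs : ∀ g i, (H g i).2 + (H g i).1 * s ≠ 0
  swap
  · exact ⟨1, one_pos, fun h => absurd h hs⟩
  set F : Finset (ℤ × ℤ) := insert ((1 : ℤ), -(s : ℤ))
    ((univ : Finset (Fin T × Fin K)).image (fun x => H x.1 x.2)) with hF
  have hFc : F.card = T * K + 1 := by
    rw [hF, card_insert_of_notMem, card_image_of_injective _ hinj, card_univ, Fintype.card_prod,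
      Fintype.card_fin, Fintype.card_fin]
    intro h
    obtain ⟨x, -, hx⟩ := mem_image.1 h
    have h1 : (H x.1 x.2).1 = 1 := by rw [hx]
    have h2 : (H x.1 x.2).2 = -(s : ℤ) := by rw [hx]
    apply hs x.1 x.2
    rw [h1, h2]
    ring
  have hF1 : ∀ f ∈ F, 0 < f.1 ∧ IsCoprime f.1 f.2 := by
    intro f hf
    rw [hF, mem_insert, mem_image] at hf
    rcases hf with rfl | ⟨x, -, rfl⟩
    · exact ⟨one_pos, isCoprime_one_left⟩
    · exact hpos _ _
  obtain ⟨C, hC0, hC⟩ := upI F (fun f hf => (hF1 f hf).1.ne') (fun f hf g hg hne =>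
    not_prop (hF1 f hf).1 (hF1 g hg).1 (hF1 f hf).2 (hF1 g hg).2 hne) δ hδ
  refine ⟨C, hC0, fun _ => ?_⟩
  filter_upwards [hC] with X hX A
  rw [← hFc]
  refine le_trans ?_ (hX A)
  rw [Nat.cast_le]
  apply card_le_card
  intro n hn
  rw [mem_filter] at hn ⊢
  refine ⟨hn.1, fun f hf p hp hpl => ?_⟩
  rw [hF, mem_insert, mem_image] at hf
  rcases hf with rfl | ⟨x, -, rfl⟩
  · have h1 := hn.2.1 p hp hpl
    show ¬ (p : ℤ) ∣ 1 * (n : ℤ) + -(s : ℤ)
    rwa [one_mul, ← sub_eq_add_neg]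
  · exact hn.2.2 x.1 x.2 p hp hpl

open Classical in
/-- rough sets are spread -/
theorem sprR {N X₀ k s : ℕ} (hN : 3 ≤ N) (hNX : X₀ ^ (s + 1) < N) {δ c C : ℝ} (hδ : 0 < δ) (hC : 0 < C)
    (P : ℝ → ℕ → Prop) (hP : ∀ x y m, x ≤ y → P y m → P x m)
    (hup : ∀ X : ℕ, X₀ ≤ X → ∀ A : ℕ, (((Ioc A (A + X)).filter (fun n : ℕ =>
      P (δ * Real.log X) n)).card : ℝ) ≤ C * (X / Real.log X ^ k))
    (R : Finset ℕ) (hR : ∀ m ∈ R, 1 ≤ m ∧ m ≤ N ∧ P (δ * Real.log N) m)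
    (hlow : c * (N / Real.log N ^ k) ≤ (R.card : ℝ)) :
    Spr k s c (C * ((s : ℝ) + 1) ^ k) N R := by
  have hN3 : (3 : ℝ) ≤ N := by exact_mod_cast hN
  have hl : 0 < Real.log N := Real.log_pos (by linarith)
  -- intervals of length at most `N`
  have key : ∀ A L : ℕ, N ≤ L ^ (s + 1) → L ≤ N → ((R.filter (fun m => A < m ∧ m ≤ A + L)).card : ℝ) ≤
      C * ((s : ℝ) + 1) ^ k * (L / Real.log N ^ k) := by
    intro A L hL hLN
    have hLX : X₀ ≤ L := by
      by_contra hcon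
      push Not at hcon
      have := Nat.pow_le_pow_left hcon.le (s + 1)
      omega
    have hL2 : 2 ≤ L := by
      by_contra hcon
      have : L ≤ 1 := by omega
      have := Nat.pow_le_pow_left this (s + 1)
      rw [one_pow] at this
      omega
    have hLr : (2 : ℝ) ≤ L := by exact_mod_cast hL2
    have hlL : 0 < Real.log L := Real.log_pos (by linarith)
    have h1 : Real.log L ≤ Real.log N := Real.log_le_log (by linarith) (by exact_mod_cast hLN)
    have h2 : Real.log N ≤ ((s : ℝ) + 1) * Real.log L := by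
      have h3 : Real.log N ≤ Real.log ((L : ℝ) ^ (s + 1)) :=
        Real.log_le_log (by linarith) (by exact_mod_cast hL)
      rw [Real.log_pow] at h3
      push_cast at h3
      exact h3
    have h3 : ((R.filter (fun m => A < m ∧ m ≤ A + L)).card : ℝ) ≤
        (((Ioc A (A + L)).filter (fun n : ℕ => P (δ * Real.log L) n)).card : ℝ) := by
      rw [Nat.cast_le]
      apply card_le_card
      intro m hm
      obtain ⟨h4, h5⟩ := mem_filter.1 hm
      exact mem_filter.2 ⟨mem_Ioc.2 h5, hP _ _ m (mul_le_mul_of_nonneg_left h1 hδ.le) (hR m h4).2.2⟩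
    refine h3.trans ((hup L hLX A).trans ?_)
    rw [mul_assoc]
    apply mul_le_mul_of_nonneg_left _ hC.le
    rw [mul_div_assoc', div_le_div_iff₀ (by positivity) (by positivity)]
    have h4 : Real.log N ^ k ≤ (((s : ℝ) + 1) * Real.log L) ^ k := pow_le_pow_left₀ hl.le h2 k
    rw [mul_pow] at h4
    calc (L : ℝ) * Real.log N ^ k ≤ L * (((s : ℝ) + 1) ^ k * Real.log L ^ k) :=
          mul_le_mul_of_nonneg_left h4 (by positivity)
      _ = ((s : ℝ) + 1) ^ k * L * Real.log L ^ k := by ring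
  refine ⟨fun m hm => ⟨(hR m hm).1, (hR m hm).2.1⟩, hlow, fun A L hL => ?_⟩
  by_cases hLN : L ≤ N
  · exact key A L hL hLN
  · push Not at hLN
    have hNN : N ≤ N ^ (s + 1) := by
      calc N = N ^ 1 := (pow_one N).symm
        _ ≤ N ^ (s + 1) := Nat.pow_le_pow_right (by omega) (by omega)
    have h1 := key 0 N hNN le_rfl
    have h2 : ((R.filter (fun m => A < m ∧ m ≤ A + L)).card : ℝ) ≤
        ((R.filter (fun m => 0 < m ∧ m ≤ 0 + N)).card : ℝ) := by
      rw [Nat.cast_le]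
      apply card_le_card
      intro m hm
      obtain ⟨h4, h5⟩ := mem_filter.1 hm
      have := hR m h4
      exact mem_filter.2 ⟨h4, by omega, by omega⟩
    refine h2.trans (h1.trans ?_)
    apply mul_le_mul_of_nonneg_left _ (by positivity)
    apply div_le_div_of_nonneg_right _ (by positivity)
    exact_mod_cast hLN.le

open Classical in
/-- **the coloured theorem with spread sets** -/
theorem hitS (T : ℕ) : ∃ K : ℕ, 1 ≤ K ∧ (1 ≤ T → ∀ H : Fin T → Fin K → ℤ × ℤ,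
    Function.Injective (fun x : Fin T × Fin K => H x.1 x.2) →
    (∀ g i, 0 < (H g i).1 ∧ IsCoprime (H g i).1 (H g i).2) →
    (∀ p : ℕ, p.Prime → p ≤ T * K → ∃ r : ℤ, ∀ g i, ¬ (p : ℤ) ∣ (H g i).1 * r + (H g i).2) →
    ∀ s : ℕ, ∃ (c C : ℝ) (r₀ : ℕ), 0 < c ∧ 0 < C ∧ ∀ᶠ N : ℕ in atTop, ∃ (S : Finset (Fin T))
      (σ : Fin T → Fin K), (T : ℝ) ≤ (18 / 5) * (S.card : ℝ) ∧
      GS s c C r₀ N (S.image (fun g => H g (σ g)))) := by
  rcases Nat.eq_zero_or_pos T with hT0 | hT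
  · subst hT0
    exact ⟨1, le_rfl, fun h => absurd h (by norm_num)⟩
  obtain ⟨M, hM1, hM2⟩ := ceilM T hT
  obtain ⟨K, hK, δ, hδ, H0⟩ := lamR0 T M hT hM1
  refine ⟨K, hK, fun _ H hinj hpos hloc s => ?_⟩
  obtain ⟨A, hA⟩ := adf_ev (univ.image (fun x : Fin T × Fin K => H x.1 x.2)) (by
    intro f hf
    obtain ⟨x, -, rfl⟩ := mem_image.1 hf
    exact hpos _ _)
  obtain ⟨s₀, c₀, hc₀, H1⟩ := H0 A
  choose Cs hCs0 hCs using fun s : ℕ => upF H hinj hpos δ hδ s
  obtain ⟨CC, hCC⟩ : ∃ CC : ℝ, CC = ∑ s ∈ range (s₀ + 1), Cs s := ⟨_, rfl⟩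
  have hCC0 : 0 < CC := by
    rw [hCC]
    exact sum_pos (fun s _ => hCs0 s) ⟨0, mem_range.2 (by omega)⟩
  have hCle : ∀ s ≤ s₀, Cs s ≤ CC := by
    intro s hs
    rw [hCC]
    exact single_le_sum (f := Cs) (fun s _ => (hCs0 s).le) (mem_range.2 (by omega))
  have hupall : ∀ᶠ X : ℕ in atTop, ∀ s ∈ range (s₀ + 1), (∀ g i, (H g i).2 + (H g i).1 * s ≠ 0) → ∀ A : ℕ,
      (((Ioc A (A + X)).filter (fun n : ℕ =>
        (∀ p : ℕ, p.Prime → Real.log p ≤ δ * Real.log X → ¬ (p : ℤ) ∣ (n : ℤ) - s) ∧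
        (∀ g i, ∀ p : ℕ, p.Prime → Real.log p ≤ δ * Real.log X →
          ¬ (p : ℤ) ∣ (H g i).1 * n + (H g i).2))).card : ℝ) ≤
        Cs s * (X / Real.log X ^ (T * K + 1)) := by
    rw [Filter.eventually_all_finset]
    intro s _
    by_cases hs : ∀ g i, (H g i).2 + (H g i).1 * s ≠ 0
    · filter_upwards [hCs s hs] with X hX _
      exact hX
    · exact Eventually.of_forall fun X h => absurd h hs
  obtain ⟨X₀, hX₀⟩ := eventually_atTop.1 hupall
  refine ⟨c₀, CC * ((s : ℝ) + 1) ^ (T * K + 1), T * K + 1, hc₀, by positivity, ?_⟩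
  filter_upwards [H1, hA, eventually_gt_atTop (X₀ ^ (s + 1) + 3)] with N hN1 hN2 hN3
  obtain ⟨s', S, σ, hs, hs1, -, hS, hcard⟩ := hN1 H hinj
    (fun g i => hN2 _ (mem_image.2 ⟨(g, i), mem_univ _, rfl⟩)) hloc
  refine ⟨S, σ, hM2.trans (mul_le_mul_of_nonneg_left (by exact_mod_cast hS) (by norm_num)),
    T * K + 1, le_rfl, Rs H δ s' S σ N, ?_, ?_⟩
  · refine sprR (δ := δ) (X₀ := X₀) (by omega) (by omega) hδ hCC0
      (fun x n => (∀ p : ℕ, p.Prime → Real.log p ≤ x → ¬ (p : ℤ) ∣ (n : ℤ) - s') ∧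
        (∀ g i, ∀ p : ℕ, p.Prime → Real.log p ≤ x → ¬ (p : ℤ) ∣ (H g i).1 * n + (H g i).2))
      (fun x y m hxy h => ⟨fun p hp hpl => h.1 p hp (hpl.trans hxy),
        fun g i p hp hpl => h.2 g i p hp (hpl.trans hxy)⟩) ?_ _ ?_ hcard
    · intro X hX A'
      have h1 := hX₀ X hX s' (mem_range.2 (by omega)) hs1 A'
      refine le_trans (le_of_eq ?_) (h1.trans ?_)
      · congr!
      · apply mul_le_mul_of_nonneg_right (hCle s' hs)
        have := Real.log_natCast_nonneg X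
        positivity
    · intro m hm
      unfold Rs at hm
      obtain ⟨h1, -, h3, h4, -⟩ := mem_filter.1 hm
      rw [mem_Icc] at h1
      exact ⟨h1.1, h1.2, h3, h4⟩
  · intro m hm f hf
    obtain ⟨g, hg, rfl⟩ := mem_image.1 hf
    unfold Rs at hm
    exact (mem_filter.1 hm).2.2.2.2 g hg

end Pool.Agent.N694.SP
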