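import Pool.Agent.N646.BX.All
import Pool.Agent.N694.SP.Spr

/-!
Spread sets of prime tuples (helper694): almost cliques.
-/

set_option autoImplicit false

namespace Pool.Agent.N694.SP

open Finset Filter Topology
open Pool.Agent.N646.AC
open Pool.Agent.N646.BX
open Pool.Agent.Y827.GS

open Classical in
/-- one almost complete set of forms, for each large `N` -/
theorem clqS (k : ℕ) (ε : ℝ) (hε : 0 < ε) : ∃ z n₀ : ℕ, ∀ V : Finset (ℤ × ℤ),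
    (∀ f ∈ V, 0 < f.1 ∧ IsCoprime f.1 f.2) → AdmF z V → n₀ ≤ V.card →
    ∀ s : ℕ, ∃ (c C : ℝ) (r₀ : ℕ), 0 < c ∧ 0 < C ∧
    ∀ᶠ N : ℕ in atTop, ∃ A ⊆ V, (5 / 18 - ε) * (V.card : ℝ) ≤ (A.card : ℝ) ∧
      ((badT k A (GS s c C r₀ N)).card : ℝ) ≤ ε * (V.card : ℝ) ^ (k + 1) := by
  choose Kf hKf1 hKf using hitS
  obtain ⟨M, n₀, hcl⟩ := wclique (lam := 18 / 5) (by norm_num) k ε hε 1 le_rfl Kf
  refine ⟨∑ T' ∈ range (M + 1), T' * Kf T', n₀, ?_⟩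
  intro V hV hadm hn0 s
  have hex : ∀ (T' : Fin (M + 1)) (H : Fin (T' : ℕ) → Fin (Kf T') → {x // x ∈ V}),
      ∃ cC : ℝ × ℝ × ℕ, 0 < cC.1 ∧ 0 < cC.2.1 ∧
      (1 ≤ (T' : ℕ) → Function.Injective (fun x : Fin (T' : ℕ) × Fin (Kf T') => H x.1 x.2) →
      ∀ᶠ N : ℕ in atTop, ∃ (S : Finset (Fin (T' : ℕ))) (c : Fin (T' : ℕ) → Fin (Kf T')),
        (((T' : ℕ) : ℝ)) ≤ (18 / 5) * (S.card : ℝ) ∧
        GS s cC.1 cC.2.1 cC.2.2 N (S.image (fun g => (H g (c g)).1))) := by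
    intro T' H
    by_cases h1 : 1 ≤ (T' : ℕ) ∧
        Function.Injective (fun x : Fin (T' : ℕ) × Fin (Kf T') => H x.1 x.2)
    swap
    · exact ⟨(1, 1, 0), one_pos, one_pos, fun h2 h3 => absurd ⟨h2, h3⟩ h1⟩
    obtain ⟨h1, h2⟩ := h1
    obtain ⟨c, C, r₀, hc, hC, h⟩ := hKf T' h1 (fun g i => (H g i).1) (fun x y hxy => h2 (Subtype.ext hxy))
      (fun g i => hV _ (H g i).2) (by
        intro p hp hpT
        obtain ⟨r, hr⟩ := hadm p (hpT.trans (Finset.single_le_sum (f := fun T' => T' * Kf T')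
          (fun _ _ => Nat.zero_le _) (mem_range.2 T'.2))) hp
        exact ⟨r, fun g i => hr _ (H g i).2⟩) s
    exact ⟨(c, C, r₀), hc, hC, fun _ _ => h⟩
  choose Cf hCf0 hCf1 hCf using hex
  -- common constants
  obtain ⟨r₀, hrle⟩ : ∃ r₀ : ℕ, ∀ (T' : Fin (M + 1)) (H : Fin (T' : ℕ) → Fin (Kf T') → {x // x ∈ V}),
      (Cf T' H).2.2 ≤ r₀ := by
    refine ⟨∑ T' : Fin (M + 1), ∑ H : Fin (T' : ℕ) → Fin (Kf T') → {x // x ∈ V}, (Cf T' H).2.2, ?_⟩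
    intro T' H
    refine (single_le_sum (f := fun H => (Cf T' H).2.2) (fun _ _ => Nat.zero_le _) (mem_univ H)).trans ?_
    exact single_le_sum (f := fun T' : Fin (M + 1) =>
      ∑ H : Fin (T' : ℕ) → Fin (Kf T') → {x // x ∈ V}, (Cf T' H).2.2) (fun _ _ => Nat.zero_le _)
      (mem_univ T')
  obtain ⟨C, hC0, hCle⟩ : ∃ C : ℝ, 0 < C ∧ ∀ (T' : Fin (M + 1))
      (H : Fin (T' : ℕ) → Fin (Kf T') → {x // x ∈ V}), (Cf T' H).2.1 ≤ C := by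
    have hs0 : (0 : ℝ) ≤ ∑ T' : Fin (M + 1), ∑ H : Fin (T' : ℕ) → Fin (Kf T') → {x // x ∈ V},
      (Cf T' H).2.1 := sum_nonneg fun T' _ => sum_nonneg fun H _ => (hCf1 T' H).le
    refine ⟨∑ T' : Fin (M + 1), ∑ H : Fin (T' : ℕ) → Fin (Kf T') → {x // x ∈ V}, (Cf T' H).2.1 + 1,
      by linarith, ?_⟩
    intro T' H
    refine le_trans ?_ (le_add_of_nonneg_right zero_le_one)
    refine (single_le_sum (f := fun H => (Cf T' H).2.1) (fun H _ => (hCf1 T' H).le) (mem_univ H)).trans ?_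
    exact single_le_sum (f := fun T' : Fin (M + 1) =>
      ∑ H : Fin (T' : ℕ) → Fin (Kf T') → {x // x ∈ V}, (Cf T' H).2.1)
      (fun T' _ => sum_nonneg fun H _ => (hCf1 T' H).le) (mem_univ T')
  obtain ⟨cm, hcm, hcle⟩ : ∃ cm : ℝ, 0 < cm ∧ ∀ (T' : Fin (M + 1))
      (H : Fin (T' : ℕ) → Fin (Kf T') → {x // x ∈ V}), cm ≤ (Cf T' H).1 := by
    set sg : ℝ := ∑ T' : Fin (M + 1), ∑ H : Fin (T' : ℕ) → Fin (Kf T') → {x // x ∈ V}, 1 / (Cf T' H).1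
      with hsg
    have h0 : ∀ (T' : Fin (M + 1)) (H : Fin (T' : ℕ) → Fin (Kf T') → {x // x ∈ V}),
        0 ≤ 1 / (Cf T' H).1 := fun T' H => by
      have := hCf0 T' H
      positivity
    have hsg0 : 0 ≤ sg := sum_nonneg fun T' _ => sum_nonneg fun H _ => h0 T' H
    refine ⟨1 / (sg + 1), by positivity, fun T' H => ?_⟩
    have h1 : 1 / (Cf T' H).1 ≤ sg := by
      refine (single_le_sum (f := fun H => 1 / (Cf T' H).1) (fun H _ => h0 T' H) (mem_univ H)).trans ?_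
      exact single_le_sum (f := fun T' : Fin (M + 1) =>
        ∑ H : Fin (T' : ℕ) → Fin (Kf T') → {x // x ∈ V}, 1 / (Cf T' H).1)
        (fun T' _ => sum_nonneg fun H _ => h0 T' H) (mem_univ T')
    have h2 := hCf0 T' H
    rw [div_le_iff₀ (by positivity)]
    rw [div_le_iff₀ h2] at h1
    nlinarith
  refine ⟨cm, C, r₀, hcm, hC0, ?_⟩
  have hev : ∀ᶠ N : ℕ in atTop, ∀ (T' : Fin (M + 1))
      (H : Fin (T' : ℕ) → Fin (Kf T') → {x // x ∈ V}),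
      1 ≤ (T' : ℕ) → Function.Injective (fun x : Fin (T' : ℕ) × Fin (Kf T') => H x.1 x.2) →
      ∃ (S : Finset (Fin (T' : ℕ))) (c : Fin (T' : ℕ) → Fin (Kf T')),
        (((T' : ℕ) : ℝ)) ≤ (18 / 5) * (S.card : ℝ) ∧
        GS s (Cf T' H).1 (Cf T' H).2.1 (Cf T' H).2.2 N (S.image (fun g => (H g (c g)).1)) := by
    rw [eventually_all]
    intro T'
    rw [eventually_all]
    intro H
    by_cases h1 : 1 ≤ (T' : ℕ) ∧
        Function.Injective (fun x : Fin (T' : ℕ) × Fin (Kf T') => H x.1 x.2)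
    swap
    · exact Eventually.of_forall fun x h2 h3 => absurd ⟨h2, h3⟩ h1
    filter_upwards [hCf T' H h1.1 h1.2] with N hN _ _
    exact hN
  filter_upwards [hev, eventually_ge_atTop 3] with N hN hN3
  obtain ⟨A, hA1, hA2, hA3⟩ := hcl (ℤ × ℤ) V (GS s cm C r₀ N) hn0
    (fun F F' hF h => GS_anti hF h) (by
      intro T' hT'1 hT'M H hHV hHinj
      obtain ⟨S, c, hS, hSc⟩ := hN ⟨T', by omega⟩ (fun g i => ⟨H g i, hHV g i⟩) hT'1 (by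
        intro x y hxy
        exact hHinj (congrArg Subtype.val hxy))
      exact ⟨S, c, hS, GS_mono hN3 le_rfl (hcle _ _) (hCle _ _) (hrle _ _) hSc⟩) (fun _ => 1)
    (fun _ _ => ⟨le_rfl, le_rfl⟩)
  refine ⟨A, hA1, ?_, hA3.le⟩
  simp only [sum_const, smul_eq_mul, mul_one] at hA2
  have h5 : (1 : ℝ) / (18 / 5) = 5 / 18 := by norm_num
  rw [h5] at hA2
  exact hA2

open Classical in
/-- **one family of tuples for all lengths of intervals** -/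
theorem clqSF (k : ℕ) (ε : ℝ) (hε : 0 < ε) : ∃ z n₀ : ℕ, ∀ V : Finset (ℤ × ℤ),
    (∀ f ∈ V, 0 < f.1 ∧ IsCoprime f.1 f.2) → AdmF z V → n₀ ≤ V.card →
    ∃ (A : Finset (ℤ × ℤ)) (G : Finset (Fin (k + 1) → ℤ × ℤ)), A ⊆ V ∧
      (5 / 18 - ε) * (V.card : ℝ) ≤ (A.card : ℝ) ∧
      ((exc (k := k) A (fun f => f ∈ G)).card : ℝ) ≤ ε * (V.card : ℝ) ^ (k + 1) ∧
      ∀ s : ℕ, ∃ (c C : ℝ) (r₀ : ℕ), 0 < c ∧ 0 < C ∧ ∃ᶠ N : ℕ in atTop, ∀ f ∈ G,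
        GS s c C r₀ N (univ.image f) := by
  obtain ⟨z, n₀, h⟩ := clqS k ε hε
  refine ⟨z, n₀, fun V hV hadm hn => ?_⟩
  set P : Finset (Finset (ℤ × ℤ) × Finset (Fin (k + 1) → ℤ × ℤ)) :=
    V.powerset ×ˢ (Fintype.piFinset (fun _ : Fin (k + 1) => V)).powerset with hP
  have h1 : ∀ s : ℕ, ∃ cC : ℝ × ℝ × ℕ, 0 < cC.1 ∧ 0 < cC.2.1 ∧ ∃ p ∈ P, ∃ᶠ N : ℕ in atTop,
      ((5 / 18 - ε) * (V.card : ℝ) ≤ (p.1.card : ℝ) ∧
        ((exc (k := k) p.1 (fun f => f ∈ p.2)).card : ℝ) ≤ ε * (V.card : ℝ) ^ (k + 1)) ∧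
        ∀ f ∈ p.2, GS s cC.1 cC.2.1 cC.2.2 N (univ.image f) := by
    intro s
    obtain ⟨c, C, r₀, hc, hC, hev⟩ := h V hV hadm hn s
    refine ⟨(c, C, r₀), hc, hC, freq_finset P (fun p N =>
      ((5 / 18 - ε) * (V.card : ℝ) ≤ (p.1.card : ℝ) ∧
        ((exc (k := k) p.1 (fun f => f ∈ p.2)).card : ℝ) ≤ ε * (V.card : ℝ) ^ (k + 1)) ∧
        ∀ f ∈ p.2, GS s c C r₀ N (univ.image f)) ?_⟩
    filter_upwards [hev] with N hN
    obtain ⟨A, hA1, hA2, hA3⟩ := hN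
    refine ⟨(A, (Fintype.piFinset (fun _ : Fin (k + 1) => V)).filter
      (fun f => GS s c C r₀ N (univ.image f))), ?_, ⟨hA2, ?_⟩, fun f hf => (mem_filter.1 hf).2⟩
    · rw [hP, mem_product]
      refine ⟨mem_powerset.2 hA1, ?_⟩
      rw [mem_powerset]
      exact filter_subset _ _
    · refine le_trans ?_ hA3
      rw [Nat.cast_le]
      apply card_le_card
      intro f hf
      rw [mem_exc] at hf
      unfold badT
      refine mem_filter.2 ⟨Fintype.mem_piFinset.2 hf.1, hf.2.1, fun hP => hf.2.2 ?_⟩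
      exact mem_filter.2 ⟨Fintype.mem_piFinset.2 fun i => hA1 (hf.1 i), hP⟩
  choose cs hcs0 hcs1 ps hps1 hps2 using h1
  obtain ⟨p, hp, hfr⟩ := freq_finset P (fun p s => ps s = p)
    (Eventually.of_forall fun s => ⟨ps s, hps1 s, rfl⟩)
  rw [hP, mem_product] at hp
  obtain ⟨s₀, hs₀⟩ := hfr.exists
  have h2 := (hps2 s₀).exists
  rw [hs₀] at h2
  obtain ⟨N₀, ⟨h3, h4⟩, -⟩ := h2
  refine ⟨p.1, p.2, mem_powerset.1 hp.1, h3, h4, fun s => ?_⟩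
  obtain ⟨s', hs', hs'p⟩ := (frequently_atTop.1 hfr) s
  refine ⟨(cs s').1, (cs s').2.1, (cs s').2.2, hcs0 s', hcs1 s', ?_⟩
  refine ((hps2 s').and_eventually (eventually_ge_atTop 3)).mono fun N hN f hf => ?_
  obtain ⟨hN, hN3⟩ := hN
  rw [hs'p] at hN
  exact GS_mono hN3 hs' le_rfl le_rfl le_rfl (hN.2 f hf)

end Pool.Agent.N694.SP
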