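import Pool.Agent.N694.SP.Fam
import Pool.Agent.N694.OB.Blk

/-!
Spread sets of prime tuples in the orbits of affine maps (helper694).
-/

set_option autoImplicit false

namespace Pool.Agent.N694.SP

open Finset Filter Topology
open Pool.Agent.N646.AC
open Pool.Agent.N646.BX
open Pool.Agent.Y827.GS
open Pool.Agent.N694.OB

/-- the image of a spread set under an affine map -/
theorem spr_affine {r r₀ s N P B : ℕ} {c C : ℝ} (hr : r ≤ r₀) {R : Finset ℕ} (hP : 1 ≤ P) {g : ℤ} (hg : |g| ≤ B)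
    (hc : 0 < c) (hC : 0 < C) (h : Spr r s c C N R) (hN3 : 3 ≤ N) (hNB : B ≤ N) (hNP : P * N + B ≤ N ^ 2)
    (hgr : 2 * (B : ℝ) ≤ c * (N / Real.log N ^ r₀)) :
    ∃ R' : Finset ℕ, Spr r s (c / (4 * P)) (2 ^ (r₀ + 1) * C) (P * N + B) R' ∧
      ∀ m ∈ R', ∃ n ∈ R, (m : ℤ) = P * n + g := by
  classical
  obtain ⟨h1, h2, h3⟩ := h
  have hN3r : (3 : ℝ) ≤ N := by exact_mod_cast hN3
  have hl1 : 1 ≤ Real.log N := by
    rw [Real.le_log_iff_exp_le (by linarith)]
    have := Real.exp_one_lt_d9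
    linarith
  have hg' := abs_le.1 hg
  have hPr : (1 : ℝ) ≤ P := by exact_mod_cast hP
  have hval : ∀ n ∈ R.filter (fun n => B < n), 1 ≤ (P : ℤ) * n + g := by
    intro n hn
    have hn' : (B : ℤ) + 1 ≤ n := by exact_mod_cast (mem_filter.1 hn).2
    have hPn : (n : ℤ) ≤ (P : ℤ) * n := by
      have : n ≤ P * n := Nat.le_mul_of_pos_left _ hP
      exact_mod_cast this
    linarith [hg'.1]
  set φ : ℕ → ℕ := fun n => ((P : ℤ) * n + g).toNat with hφ
  have hφv : ∀ n ∈ R.filter (fun n => B < n), ((φ n : ℕ) : ℤ) = P * n + g := fun n hn =>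
    Int.toNat_of_nonneg (by linarith [hval n hn])
  have hinj : Set.InjOn φ (R.filter (fun n => B < n) : Finset ℕ) := by
    intro n hn n' hn' hnn
    have h4 := hφv n hn
    have h5 := hφv n' hn'
    have h6 : ((φ n : ℕ) : ℤ) = φ n' := by exact_mod_cast hnn
    have h7 : (P : ℤ) * n = P * n' := by linarith
    have h8 : P * n = P * n' := by exact_mod_cast h7
    exact Nat.eq_of_mul_eq_mul_left hP h8
  have hlogN' : Real.log N ≤ Real.log ((P * N + B : ℕ) : ℝ) := by
    apply Real.log_le_log (by linarith)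
    have : N ≤ P * N + B := (Nat.le_mul_of_pos_left _ hP).trans (Nat.le_add_right _ _)
    exact_mod_cast this
  have hlogN2 : Real.log ((P * N + B : ℕ) : ℝ) ≤ 2 * Real.log N := by
    have h4 : Real.log ((P * N + B : ℕ) : ℝ) ≤ Real.log ((N : ℝ) ^ 2) := by
      apply Real.log_le_log
      · have : 0 < P * N + B := by nlinarith
        exact_mod_cast this
      · exact_mod_cast hNP
    rw [Real.log_pow] at h4
    push_cast at h4 ⊢
    exact h4
  refine ⟨(R.filter (fun n => B < n)).image φ, ⟨?_, ?_, ?_⟩, ?_⟩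
  · intro m hm
    obtain ⟨n, hn, rfl⟩ := mem_image.1 hm
    have h4 := hval n hn
    have h5 := hφv n hn
    have h6 := (h1 n (mem_filter.1 hn).1).2
    have h7 : (P : ℤ) * n ≤ P * N := mul_le_mul_of_nonneg_left (by exact_mod_cast h6) (Int.natCast_nonneg _)
    have h8 : ((φ n : ℕ) : ℤ) ≤ ((P * N + B : ℕ) : ℤ) := by
      rw [h5]; push_cast; linarith [hg'.2]
    constructor
    · omega
    · exact_mod_cast h8
  · rw [card_image_of_injOn hinj]
    have h4 : R.card ≤ B + (R.filter (fun n => B < n)).card := by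
      have h5 : R ⊆ Icc 1 B ∪ R.filter (fun n => B < n) := by
        intro n hn
        rw [mem_union, mem_Icc, mem_filter]
        by_cases h6 : n ≤ B
        · exact Or.inl ⟨(h1 n hn).1, h6⟩
        · exact Or.inr ⟨hn, by omega⟩
      have h6 := (card_le_card h5).trans (card_union_le _ _)
      rw [Nat.card_Icc] at h6
      omega
    have h5 : (R.card : ℝ) ≤ B + (R.filter (fun n => B < n)).card := by exact_mod_cast h4
    have h6 : (((P * N + B : ℕ) : ℝ)) ≤ 2 * P * N := by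
      push_cast
      have : (B : ℝ) ≤ N := by exact_mod_cast hNB
      nlinarith
    have h7 : (((P * N + B : ℕ) : ℝ)) / Real.log ((P * N + B : ℕ) : ℝ) ^ r ≤ 2 * P * N / Real.log N ^ r := by
      apply div_le_div₀ (by positivity) h6 (by positivity)
      exact pow_le_pow_left₀ (by linarith) hlogN' r
    have h8 : c / (4 * P) * ((((P * N + B : ℕ) : ℝ)) / Real.log ((P * N + B : ℕ) : ℝ) ^ r) ≤
        c / 2 * (N / Real.log N ^ r) := by
      refine (mul_le_mul_of_nonneg_left h7 (by positivity)).trans (le_of_eq ?_)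
      field_simp
      ring
    have h9 : (N : ℝ) / Real.log N ^ r₀ ≤ N / Real.log N ^ r :=
      div_le_div_of_nonneg_left (by positivity) (by positivity) (pow_le_pow_right₀ hl1 hr)
    have h10 : c * ((N : ℝ) / Real.log N ^ r₀) ≤ c * (N / Real.log N ^ r) :=
      mul_le_mul_of_nonneg_left h9 hc.le
    linarith
  · intro A L hL
    have hL1 : 1 ≤ L := by
      by_contra hcon
      have : L = 0 := by omega
      subst this
      rw [zero_pow (by omega)] at hL
      have : N ≤ P * N := Nat.le_mul_of_pos_left _ hP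
      omega
    set A' : ℕ := (((A : ℤ) - g) / P).toNat with hA'
    have hNL : N ≤ (L + 1) ^ (s + 1) := by
      have h4 : N ≤ P * N + B := (Nat.le_mul_of_pos_left _ hP).trans (Nat.le_add_right _ _)
      exact h4.trans (hL.trans (Nat.pow_le_pow_left (by omega) _))
    have h4 := h3 A' (L + 1) hNL
    have h5 : (((R.filter (fun n => B < n)).image φ).filter (fun m => A < m ∧ m ≤ A + L)).card ≤
        (R.filter (fun m => A' < m ∧ m ≤ A' + (L + 1))).card := by
      have h6 : ((R.filter (fun n => B < n)).image φ).filter (fun m => A < m ∧ m ≤ A + L) ⊆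
          (R.filter (fun m => A' < m ∧ m ≤ A' + (L + 1))).image φ := by
        intro m hm
        obtain ⟨h7, h8, h9⟩ := mem_filter.1 hm
        obtain ⟨n, hn, rfl⟩ := mem_image.1 h7
        refine mem_image_of_mem _ (mem_filter.2 ⟨(mem_filter.1 hn).1, ?_⟩)
        have h10 := hφv n hn
        have hP0 : (0 : ℤ) < P := by exact_mod_cast hP
        have hn1 : 1 ≤ n := (h1 n (mem_filter.1 hn).1).1
        have h8' : (A : ℤ) < P * n + g := by rw [← h10]; exact_mod_cast h8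
        have h9' : (P : ℤ) * n + g ≤ A + L := by rw [← h10]; exact_mod_cast h9
        have h11 : ((A : ℤ) - g) / P < n := by
          rw [Int.ediv_lt_iff_lt_mul hP0]
          linarith
        have h12 : (n : ℤ) ≤ ((A : ℤ) - g) / P + 1 + L := by
          have h13 := Int.lt_ediv_add_one_mul_self ((A : ℤ) - g) hP0
          have h14 : (P : ℤ) * n < P * (((A : ℤ) - g) / P + 1 + L + 1) := by
            have h15 : (L : ℤ) ≤ P * L := by
              have : L ≤ P * L := Nat.le_mul_of_pos_left _ hP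
              exact_mod_cast this
            linarith
          have := lt_of_mul_lt_mul_left h14 hP0.le
          omega
        omega
      exact (card_le_card h6).trans card_image_le
    calc ((((R.filter (fun n => B < n)).image φ).filter (fun m => A < m ∧ m ≤ A + L)).card : ℝ)
        ≤ ((R.filter (fun m => A' < m ∧ m ≤ A' + (L + 1))).card : ℝ) := by exact_mod_cast h5
      _ ≤ C * (((L + 1 : ℕ) : ℝ) / Real.log N ^ r) := h4
      _ ≤ C * ((2 * L) / (Real.log ((P * N + B : ℕ) : ℝ) / 2) ^ r) := by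
          apply mul_le_mul_of_nonneg_left _ hC.le
          have hL1r : (1 : ℝ) ≤ L := by exact_mod_cast hL1
          have h6 : (0 : ℝ) < Real.log ((P * N + B : ℕ) : ℝ) := by linarith
          apply div_le_div₀ (by positivity) (by push_cast; linarith) (by positivity)
          apply pow_le_pow_left₀ (by positivity)
          linarith
      _ = 2 ^ (r + 1) * C * (L / Real.log ((P * N + B : ℕ) : ℝ) ^ r) := by
          rw [div_pow, div_div_eq_mul_div]
          ring
      _ ≤ 2 ^ (r₀ + 1) * C * (L / Real.log ((P * N + B : ℕ) : ℝ) ^ r) := by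
          have h6 : (0 : ℝ) < Real.log ((P * N + B : ℕ) : ℝ) := by linarith
          apply mul_le_mul_of_nonneg_right _ (by positivity)
          apply mul_le_mul_of_nonneg_right _ hC.le
          exact pow_le_pow_right₀ (by norm_num) (by omega)
  · intro m hm
    obtain ⟨n, hn, rfl⟩ := mem_image.1 hm
    exact ⟨n, (mem_filter.1 hn).1, hφv n hn⟩

/-- the conditions of the transfer hold for large `N` -/
theorem ev_affine (P B r₀ : ℕ) (c : ℝ) (hc : 0 < c) : ∀ᶠ N : ℕ in atTop, 3 ≤ N ∧ B ≤ N ∧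
    P * N + B ≤ N ^ 2 ∧ 2 * (B : ℝ) ≤ c * (N / Real.log N ^ r₀) := by
  have hsmall : ∀ᶠ N : ℕ in atTop, (2 * (B : ℝ) / c) * (Real.log N) ^ r₀ ≤ (N : ℝ) := by
    have h1 : Tendsto (fun N : ℕ => (Real.log (N : ℝ)) ^ r₀ / (N : ℝ)) atTop (𝓝 0) := by
      have h2 := (Real.isLittleO_pow_log_id_atTop (n := r₀)).tendsto_div_nhds_zero
      exact h2.comp tendsto_natCast_atTop_atTop
    have h3 : Tendsto (fun N : ℕ => (2 * (B : ℝ) / c) * ((Real.log (N : ℝ)) ^ r₀ / (N : ℝ))) atTop (𝓝 0) := by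
      simpa using h1.const_mul (2 * (B : ℝ) / c)
    filter_upwards [h3.eventually (gt_mem_nhds (by norm_num : (0 : ℝ) < 1)),
      eventually_gt_atTop 0] with N h4 h5
    have h6 : (0 : ℝ) < N := by exact_mod_cast h5
    have h7 : (2 * (B : ℝ) / c) * ((Real.log N) ^ r₀ / N) = (2 * (B : ℝ) / c) * (Real.log N) ^ r₀ / N := by ring
    rw [h7, div_lt_iff₀ h6] at h4
    linarith
  filter_upwards [hsmall, eventually_ge_atTop (P + B + 3)] with N h1 h2
  have hN3 : (3 : ℝ) ≤ N := by exact_mod_cast (by omega : 3 ≤ N)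
  have hl : 0 < Real.log N := Real.log_pos (by linarith)
  refine ⟨by omega, by omega, ?_, ?_⟩
  · have : P * N + B ≤ (P + B) * N := by nlinarith
    refine this.trans ?_
    rw [pow_two]
    exact Nat.mul_le_mul_right _ (by omega)
  · rw [mul_div_assoc', le_div_iff₀ (by positivity)]
    have h3 : 2 * (B : ℝ) / c * Real.log N ^ r₀ * c ≤ N * c := mul_le_mul_of_nonneg_right h1 hc.le
    have h4 : 2 * (B : ℝ) / c * Real.log N ^ r₀ * c = 2 * B * Real.log N ^ r₀ := by
      field_simp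
    linarith

/-- good differences of times -/
def GoodO (a : ℕ) (b : ℤ) {k : ℕ} (h : Fin k → ℤ) : Prop :=
  ∃ e : ℕ, (∀ i, 0 ≤ (e : ℤ) + (Fin.cons 0 h : Fin (k + 1) → ℤ) i) ∧
    ∀ s : ℕ, ∃ (c C : ℝ) (r : ℕ), 0 < c ∧ 0 < C ∧ ∃ᶠ N : ℕ in atTop, ∃ R : Finset ℕ, Spr r s c C N R ∧
      ∀ n ∈ R, ∀ i, (va a b ((e : ℤ) + (Fin.cons 0 h : Fin (k + 1) → ℤ) i).toNat n).toNat.Prime

/-- good vectors of times `≥ 0` -/
def GoodTS (a : ℕ) (b : ℤ) {k : ℕ} (d : Fin k → ℕ) : Prop :=
  ∀ s : ℕ, ∃ (c C : ℝ) (r : ℕ), 0 < c ∧ 0 < C ∧ ∃ᶠ N : ℕ in atTop, ∃ R : Finset ℕ, Spr r s c C N R ∧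
      ∀ n ∈ R, ∀ i, (va a b ((Fin.cons 0 d : Fin (k + 1) → ℕ) i) n).toNat.Prime

theorem goodTS_of_goodO {a : ℕ} {b : ℤ} (ha : 2 ≤ a) {k : ℕ} {d : Fin k → ℕ}
    (h : GoodO a b (fun j => (d j : ℤ))) : GoodTS a b d := by
  obtain ⟨e, -, h⟩ := h
  intro s
  obtain ⟨c, C, r, hc, hC, hfr⟩ := h s
  set g : ℤ := b * geo a e with hg
  have hP : 1 ≤ a ^ e := Nat.one_le_pow _ _ (by omega)
  refine ⟨c / (4 * (a ^ e : ℕ)), 2 ^ (r + 1) * C, r, by positivity, by positivity, ?_⟩
  have htend : Tendsto (fun N : ℕ => a ^ e * N + g.natAbs) atTop atTop := by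
    refine tendsto_atTop_mono (fun N => ?_) tendsto_id
    show N ≤ a ^ e * N + g.natAbs
    exact (Nat.le_mul_of_pos_left _ hP).trans (Nat.le_add_right _ _)
  refine htend.frequently ((hfr.and_eventually (ev_affine (a ^ e) g.natAbs r c hc)).mono ?_)
  rintro N ⟨⟨R, hR, hRp⟩, h1, h2, h3, h4⟩
  obtain ⟨R', hR', hR'p⟩ := spr_affine (r₀ := r) le_rfl (g := g) (B := g.natAbs) hP
    (by rw [Int.natCast_natAbs]) hc hC hR h1 h2 h3 h4
  refine ⟨R', hR', fun m hm i => ?_⟩
  obtain ⟨n, hn, hmn⟩ := hR'p m hm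
  have h5 := hRp n hn i
  have h6 : ((e : ℤ) + (Fin.cons 0 (fun j => (d j : ℤ)) : Fin (k + 1) → ℤ) i).toNat =
      e + (Fin.cons 0 d : Fin (k + 1) → ℕ) i := by
    rcases Fin.eq_zero_or_eq_succ i with h0 | ⟨j', hj'⟩
    · subst h0
      rw [Fin.cons_zero, Fin.cons_zero]
      simp
    · subst hj'
      rw [Fin.cons_succ, Fin.cons_succ]
      omega
  rw [h6, va_comp] at h5
  have h7 : va a b e n = m := by
    rw [hmn, hg]
    unfold va
    push_cast
    ring
  rw [h7] at h5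
  exact h5

theorem freq_le {r₀ : ℕ} (Q : ℕ → ℕ → Prop) (h : ∃ᶠ N : ℕ in atTop, ∃ r ≤ r₀, Q r N) :
    ∃ r, ∃ᶠ N : ℕ in atTop, Q r N := by
  by_contra hcon
  push Not at hcon
  have h1 : ∀ᶠ N : ℕ in atTop, ∀ r ∈ range (r₀ + 1), ¬ Q r N := by
    rw [Filter.eventually_all_finset]
    exact fun r _ => hcon r
  apply h
  filter_upwards [h1] with N hN
  rintro ⟨r, hr, hQ⟩
  exact hN r (mem_range.2 (by omega)) hQ

theorem cleSO (k : ℕ) (ε : ℝ) (hε : 0 < ε) (a : ℕ) (b : ℤ) (ha : 2 ≤ a) (hab : IsCoprime (a : ℤ) b) :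
    CLe k (GoodO a b) (5 / 18) ε := by
  classical
  obtain ⟨z, n₀, h⟩ := clqSF k ε hε
  obtain ⟨M₀, hM₀⟩ : ∃ M₀, M₀ = a - 1 := ⟨_, rfl⟩
  have hM₀1 : 1 ≤ M₀ := by omega
  refine ⟨M₀, n₀, hM₀1, ?_⟩
  intro V hV hn
  obtain ⟨B, hBx⟩ : ∃ B : ℕ, ∀ x ∈ V, x.natAbs ≤ B := ⟨∑ x ∈ V, x.natAbs, fun x hx =>
    single_le_sum (f := fun x : ℤ => x.natAbs) (fun _ _ => Nat.zero_le _) hx⟩
  set s : ℤ := (M₀ : ℤ) * (B + 1) with hs
  have hpos : ∀ x ∈ V, 0 ≤ x + s := by
    intro x hx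
    have h1 := hBx x hx
    have h2 : (x.natAbs : ℤ) ≤ B := by exact_mod_cast h1
    have h3 : (1 : ℤ) ≤ (M₀ : ℤ) := by exact_mod_cast hM₀1
    have h4 : (B : ℤ) ≤ s := by
      rw [hs]
      nlinarith [Int.natCast_nonneg B]
    have h5 : -(x.natAbs : ℤ) ≤ x := by omega
    linarith
  set τ : ℤ → ℕ := fun x => (x + s).toNat with hτ
  have hτx : ∀ x ∈ V, ((τ x : ℕ) : ℤ) = x + s := fun x hx => Int.toNat_of_nonneg (hpos x hx)
  have hτM : ∀ x ∈ V, M₀ ∣ τ x := by
    intro x hx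
    have h4 : (M₀ : ℤ) ∣ x + s := dvd_add (hV x hx) (dvd_mul_right _ _)
    rw [← hτx x hx] at h4
    exact Int.natCast_dvd_natCast.1 h4
  set F : ℤ → ℤ × ℤ := fun x => fo a b (τ x) with hF
  have hinj : Set.InjOn F (V : Set ℤ) := by
    intro x hx y hy hxy
    have h1 : τ x = τ y := fo_inj ha hxy
    have h2 := hτx x hx
    have h3 := hτx y hy
    rw [h1] at h2
    linarith
  set V' : Finset (ℤ × ℤ) := V.image F with hV'
  have hVc : V'.card = V.card := card_image_of_injOn hinj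
  obtain ⟨U, G, hUV, hUc, hUe, hG⟩ := h V' (by
    intro f hf
    obtain ⟨x, hx, rfl⟩ := mem_image.1 hf
    exact ⟨fo_pos ha _, fo_cop hab _⟩) (by
    intro p _ hp
    obtain ⟨n, hn⟩ := fo_adm ha hab hp
    refine ⟨n, fun f hf hd => ?_⟩
    obtain ⟨x, hx, rfl⟩ := mem_image.1 hf
    exact hn (τ x) (by rw [← hM₀]; exact hτM x hx) hd) (by
    rw [hVc]; exact hn)
  set A : Finset ℤ := V.filter (fun x => F x ∈ U) with hA
  have hAV : A ⊆ V := filter_subset _ _
  have hAU : A.image F = U := by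
    ext f
    constructor
    · intro hf
      obtain ⟨x, hx, rfl⟩ := mem_image.1 hf
      exact (mem_filter.1 hx).2
    · intro hf
      obtain ⟨x, hx, rfl⟩ := mem_image.1 (hUV hf)
      exact mem_image.2 ⟨x, mem_filter.2 ⟨hx, hf⟩, rfl⟩
  have hAc : A.card = U.card := by
    rw [← hAU]
    exact (card_image_of_injOn (hinj.mono (by exact_mod_cast hAV))).symm
  refine ⟨A, hAV, ?_, ?_⟩
  · rw [hAc, ← hVc]
    exact hUc
  · have h5 : Set.ncard {y : Fin (k + 1) → ℤ | (∀ i, y i ∈ A) ∧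
        Function.Injective y ∧ ¬ GoodO a b (fun j => y j.succ - y 0)} ≤
        (exc U (fun f => f ∈ G)).card := by
      rw [← Set.ncard_coe_finset]
      refine Set.ncard_le_ncard_of_injOn (fun y i => F (y i)) ?_ ?_ (Set.toFinite _)
      · rintro y ⟨hy1, hy2, hy3⟩
        rw [mem_coe, mem_exc]
        refine ⟨fun i => (mem_filter.1 (hy1 i)).2, fun i i' hii => hy2 (hinj (hAV (hy1 i))
          (hAV (hy1 i')) hii), fun hyG => hy3 ?_⟩
        have hy0 : y 0 ∈ V := hAV (hy1 0)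
        have hti : ∀ i, (((τ (y 0)) : ℕ) : ℤ) +
            (Fin.cons 0 (fun j : Fin k => y j.succ - y 0) : Fin (k + 1) → ℤ) i = y i + s := by
          intro i
          rw [hτx _ hy0]
          rcases Fin.eq_zero_or_eq_succ i with h0 | ⟨j', hj'⟩
          · subst h0
            rw [Fin.cons_zero]
            ring
          · subst hj'
            rw [Fin.cons_succ]
            ring
        refine ⟨τ (y 0), fun i => ?_, fun s' => ?_⟩
        · rw [hti i]
          exact hpos _ (hAV (hy1 i))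
        · obtain ⟨c, C, r₀, hc, hC, hfr⟩ := hG s'
          have h6 : ∃ᶠ N : ℕ in atTop, ∃ r ≤ r₀, ∃ R : Finset ℕ, Spr r s' c C N R ∧
              ∀ n ∈ R, ∀ i, (va a b ((((τ (y 0)) : ℕ) : ℤ) +
                (Fin.cons 0 (fun j : Fin k => y j.succ - y 0) : Fin (k + 1) → ℤ) i).toNat n).toNat.Prime := by
            refine hfr.mono fun N hN => ?_
            obtain ⟨r, hr, R, hR, hRp⟩ := hN _ hyG
            refine ⟨r, hr, R, hR, fun n hn i => ?_⟩
            have h7 := hRp n hn (F (y i)) (mem_image_of_mem _ (mem_univ i))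
            rw [hti i]
            exact h7
          obtain ⟨r, hr⟩ := freq_le _ h6
          exact ⟨c, C, r, hc, hC, hr⟩
      · intro y hy y' hy' hyy
        funext i
        exact hinj (hAV (hy.1 i)) (hAV (hy'.1 i)) (congrFun hyy i)
    calc (Set.ncard {y : Fin (k + 1) → ℤ | (∀ i, y i ∈ A) ∧
        Function.Injective y ∧ ¬ GoodO a b (fun j => y j.succ - y 0)} : ℝ) ≤
        ((exc U (fun f => f ∈ G)).card : ℝ) := by exact_mod_cast h5
      _ ≤ ε * (V'.card : ℝ) ^ (k + 1) := hUe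
      _ = ε * (V.card : ℝ) ^ (k + 1) := by rw [hVc]

/-- **Boxes of times, spread sets.** -/
theorem mainO (k : ℕ) (hk : 1 ≤ k) (ε : ℝ) (hε : 0 < ε) (a : ℕ) (b : ℤ) (ha : 2 ≤ a)
    (hab : IsCoprime (a : ℤ) b) : ∃ M : ℕ, 1 ≤ M ∧ ∀ N : ℕ, 1 ≤ N → M ∣ N → ∃ L : ℕ,
      ∀ T : ℕ, L ≤ T → ∀ c : Fin k → ℕ, (∀ j, M ∣ c j) →
        ((k + 1) * (5 / 18 : ℝ) ^ k - ε) * (T : ℝ) ^ k ≤
          ({t : Fin k → ℕ | (∀ j, t j < T) ∧ GoodTS a b (fun j => c j + N * t j)}.ncard : ℝ) := by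
  classical
  obtain ⟨ε', hε', h⟩ := box_main k hk (5 / 18) (by norm_num) (by norm_num) ε hε
  obtain ⟨M, hM, h1⟩ := h _ (cleSO k ε' hε' a b ha hab)
  refine ⟨M, hM, fun N hN hMN => ?_⟩
  obtain ⟨L, h2⟩ := h1 N hN hMN
  refine ⟨L, fun T hT c hc => ?_⟩
  refine (h2 T hT (fun j => (c j : ℤ)) (fun j => Int.natCast_dvd_natCast.2 (hc j))).trans ?_
  unfold Pool.Agent.N646.BX.cnt
  rw [← Set.ncard_coe_finset, Nat.cast_le]
  refine Set.ncard_le_ncard_of_injOn (fun t : Fin k → ℤ => fun j => (t j).toNat) ?_ ?_ ?_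
  · intro t ht
    rw [mem_coe, mem_filter, Fintype.mem_piFinset] at ht
    obtain ⟨ht1, ht2⟩ := ht
    have ht3 : ∀ j, (((t j).toNat : ℕ) : ℤ) = t j := fun j => Int.toNat_of_nonneg (mem_Ico.1 (ht1 j)).1
    refine ⟨fun j => ?_, ?_⟩
    · have h2 := (mem_Ico.1 (ht1 j)).2
      have h3 := ht3 j
      show (t j).toNat < T
      omega
    · apply goodTS_of_goodO ha
      have h4 : (fun j => ((c j + N * (t j).toNat : ℕ) : ℤ)) = fun j => (c j : ℤ) + N * t j := by
        funext j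
        push_cast
        rw [ht3 j]
      show GoodO a b (fun j => ((c j + N * (t j).toNat : ℕ) : ℤ))
      rw [h4]
      exact ht2
  · intro t ht t' ht' htt
    rw [mem_coe, mem_filter, Fintype.mem_piFinset] at ht ht'
    funext j
    have h2 := (mem_Ico.1 (ht.1 j)).1
    have h3 := (mem_Ico.1 (ht'.1 j)).1
    have h4 : (t j).toNat = (t' j).toNat := congrFun htt j
    omega
  · apply (Fintype.piFinset (fun _ : Fin k => range T)).finite_toSet.subset
    intro t ht
    rw [mem_coe, Fintype.mem_piFinset]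
    exact fun j => mem_range.2 (ht.1 j)

end Pool.Agent.N694.SP
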